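import Pool.Agent.Y516.NW.Stm

/-!
# The kinetic ball is bounded and has positive volume

`ball : BallStm` of `Pool.Agent.Y516.NW.Stm`.
-/

set_option autoImplicit false

namespace Pool.Agent.Y317.NW

open MeasureTheory Pool.Agent.Y516.NW

lemma mom_castSucc {n : ℕ} (P : Fin n → E3) (k : Fin n) : mom P k.castSucc = P k := by
  unfold mom
  exact Fin.snoc_castSucc (α := fun _ => E3) _ _ k

lemma mom_last {n : ℕ} (P : Fin n → E3) : mom P (Fin.last n) = -∑ i, P i := by
  unfold mom
  exact Fin.snoc_last (α := fun _ => E3) _ _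

theorem ball : BallStm := by
  intro n m hm
  have h0 : 0 ≤ ∑ i, 2 * m i := Finset.sum_nonneg fun i _ => by
    have := hm i
    positivity
  refine ⟨1 + ∑ i, 2 * m i, by linarith, ?_, ?_⟩
  · intro P h
    rw [pi_norm_le_iff_of_nonneg (by linarith)]
    intro k
    have h1 : ‖mom P k.castSucc‖ ^ 2 / (2 * m k.castSucc) ≤ 1 :=
      le_trans (Finset.single_le_sum (f := fun i => ‖mom P i‖ ^ 2 / (2 * m i))
        (fun i _ => by
          have := hm i
          positivity) (Finset.mem_univ k.castSucc)) h
    have hk := hm k.castSucc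
    rw [mom_castSucc, div_le_one (by positivity)] at h1
    have h2 : 2 * m k.castSucc ≤ ∑ i, 2 * m i :=
      Finset.single_le_sum (f := fun i => 2 * m i) (fun i _ => by
        have := hm i
        positivity) (Finset.mem_univ k.castSucc)
    nlinarith [norm_nonneg (P k), sq_nonneg (‖P k‖ - 1)]
  · have hc : Continuous fun P : Fin n → E3 => ∑ i, ‖mom P i‖ ^ 2 / (2 * m i) := by
      have e : (fun P : Fin n → E3 => ∑ i, ‖mom P i‖ ^ 2 / (2 * m i)) = fun P =>
          (∑ k : Fin n, ‖P k‖ ^ 2 / (2 * m k.castSucc)) +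
            ‖-∑ i, P i‖ ^ 2 / (2 * m (Fin.last n)) := by
        funext P
        rw [Fin.sum_univ_castSucc, mom_last]
        congr 1
        exact Finset.sum_congr rfl fun k _ => by rw [mom_castSucc]
      rw [e]
      fun_prop
    have ho : IsOpen {P : Fin n → E3 | ∑ i, ‖mom P i‖ ^ 2 / (2 * m i) < 1} :=
      isOpen_lt hc continuous_const
    have hne : {P : Fin n → E3 | ∑ i, ‖mom P i‖ ^ 2 / (2 * m i) < 1}.Nonempty := by
      refine ⟨0, ?_⟩
      have h1 : ∀ i, mom (0 : Fin n → E3) i = 0 := by
        intro i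
        refine Fin.lastCases ?_ (fun k => ?_) i
        · rw [mom_last]
          simp
        · rw [mom_castSucc]
          rfl
      simp [h1]
    refine (ho.measure_pos volume hne).trans_le (measure_mono fun P hP => ?_)
    rw [Set.mem_setOf_eq] at hP ⊢
    exact hP.le

end Pool.Agent.Y317.NW
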